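import Pool.Agent.SH9.CW

set_option autoImplicit false

/-!
# The averaging lemma

`a` points of multiplicities `T i + 1` or `T i`, and further points `ms`. If the system with all
`T i + 1` is empty and the system with all `T i` has dimension at most `X`, then for every `b ≤ a`
there is a set `S` of `b` of the points such that the system with `T i` on `S` and `T i + 1` off `S`
has dimension at most `b X / a`.
-/

namespace Pool.Agent.helper38.EXH

open MvPolynomial Pool.Agent.helper5.NBS Pool.Agent.helper89.Segre Pool.Agent.SH9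
open Pool.Agent.SH9.CWaux

/-- a space is at most the sum of the codimensions of subspaces with zero intersection -/
lemma finrank_le_sum {V ι : Type*} [AddCommGroup V] [Module ℂ V] [Module.Finite ℂ V] [DecidableEq ι]
    (S : Finset ι) (A : ι → Submodule ℂ V) (h : ∀ x : V, (∀ i ∈ S, x ∈ A i) → x = 0) :
    Module.finrank ℂ V ≤ ∑ i ∈ S, (Module.finrank ℂ V - Module.finrank ℂ (A i)) := by
  let f : V →ₗ[ℂ] ((i : S) → V ⧸ A i) := LinearMap.pi fun i => (A i).mkQ
  have hinj : Function.Injective f := by
    rw [← LinearMap.ker_eq_bot, LinearMap.ker_eq_bot']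
    intro x hx
    apply h x
    intro i hi
    have h1 := congrFun hx ⟨i, hi⟩
    exact (Submodule.Quotient.mk_eq_zero (A i)).mp h1
  have h1 := LinearMap.finrank_le_finrank_of_injective hinj
  rw [Module.finrank_pi_fintype] at h1
  refine h1.trans (le_of_eq ?_)
  rw [← Finset.sum_coe_sort S]
  apply Finset.sum_congr rfl
  intro i _
  have h2 := Submodule.finrank_quotient_add_finrank (A i)
  omega

/-- one of the subspaces is small -/
lemma exists_small {V ι : Type*} [AddCommGroup V] [Module ℂ V] [Module.Finite ℂ V] [DecidableEq ι]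
    (S : Finset ι) (hS : S.Nonempty) (A : ι → Submodule ℂ V)
    (h : ∀ x : V, (∀ i ∈ S, x ∈ A i) → x = 0) :
    ∃ i ∈ S, S.card * Module.finrank ℂ (A i) ≤ (S.card - 1) * Module.finrank ℂ V := by
  by_contra hcon
  push Not at hcon
  have h1 := finrank_le_sum S A h
  have hc : 0 < S.card := Finset.card_pos.mpr hS
  have h2 : S.card * ∑ i ∈ S, (Module.finrank ℂ V - Module.finrank ℂ (A i)) <
      ∑ i ∈ S, Module.finrank ℂ V := by
    rw [Finset.mul_sum]
    apply Finset.sum_lt_sum_of_nonempty hS
    intro i hi
    have h3 := hcon i hi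
    have h4 := Submodule.finrank_le (A i)
    obtain ⟨k, hk⟩ : ∃ k, Module.finrank ℂ V = Module.finrank ℂ (A i) + k := ⟨_, (Nat.add_sub_cancel' h4).symm⟩
    obtain ⟨c, hc'⟩ : ∃ c, S.card = c + 1 := ⟨S.card - 1, by omega⟩
    rw [hk, hc'] at h3 ⊢
    have h5 : Module.finrank ℂ (A i) + k - Module.finrank ℂ (A i) = k := by omega
    rw [h5]
    have h6 : c + 1 - 1 = c := rfl
    rw [h6] at h3
    nlinarith
  rw [Finset.sum_const, smul_eq_mul] at h2
  exact absurd (Nat.mul_le_mul_left S.card h1) (by omega)

/-- value at a point -/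
lemma coeff_zero_trans (p : Fin 2 → ℂ) (F : R2) : coeff 0 (trans p F) = eval p F := by
  have h1 : trans p F = aeval (fun j : Fin 2 => (X j + C (p j) : R2)) F := rfl
  rw [h1, ← constantCoeff_eq]
  have h2 : constantCoeff (R := ℂ) (σ := Fin 2) = eval (fun _ => (0 : ℂ)) := by
    ext i
    · simp
    · simp
  rw [h2, aeval_def, eval_eval₂]
  have h3 : (eval (fun _ : Fin 2 => (0 : ℂ))).comp (algebraMap ℂ R2) = RingHom.id ℂ := by
    ext
    simp
  rw [h3]
  have h4 : (fun s => (eval fun _ : Fin 2 => (0 : ℂ)) ((X s + C (p s) : R2))) = p := by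
    funext s
    simp
  rw [h4]
  rfl

/-- points such that no element of a small space vanishes at all of them -/
lemma exists_pts : ∀ (σ : ℕ) (K : Submodule ℂ R2) (_ : Module.Finite ℂ K)
    (_ : Module.finrank ℂ K ≤ σ), ∃ z : Fin σ → Fin 2 → ℂ,
      ∀ F ∈ K, (∀ j, F ∈ ptIdeal (z j) ^ 1) → F = 0 := by
  intro σ
  induction σ with
  | zero =>
    intro K hf hK
    refine ⟨Fin.elim0, ?_⟩
    intro F hF _
    have h1 : K = ⊥ := Submodule.finrank_eq_zero.mp (by omega)
    rw [h1] at hF
    exact (Submodule.mem_bot ℂ).mp hF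
  | succ σ ih =>
    intro K hf hK
    by_cases hbot : K = ⊥
    · refine ⟨fun _ _ => 0, ?_⟩
      intro F hF _
      rw [hbot] at hF
      exact (Submodule.mem_bot ℂ).mp hF
    · obtain ⟨G, hG, hG0⟩ := (Submodule.ne_bot_iff K).mp hbot
      obtain ⟨z0, hz0⟩ : ∃ z0 : Fin 2 → ℂ, eval z0 G ≠ 0 := by
        by_contra hcon
        push Not at hcon
        exact hG0 (MvPolynomial.funext fun x => by rw [hcon x, map_zero])
      let f : R2 →ₗ[ℂ] ℂ := (lcoeff ℂ (0 : Fin 2 →₀ ℕ)) ∘ₗ (trans z0).toLinearMap
      have hf0 : ∀ F, f F = coeff 0 (trans z0 F) := fun F => rfl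
      set K' : Submodule ℂ R2 := K ⊓ LinearMap.ker f with hK'
      have hle : K' ≤ K := inf_le_left
      have hlt : K' < K := by
        refine lt_of_le_of_ne hle ?_
        intro heq
        have h1 : G ∈ K' := by rw [heq]; exact hG
        have h2 : f G = 0 := h1.2
        rw [hf0, coeff_zero_trans] at h2
        exact hz0 h2
      have hfin' : Module.Finite ℂ K' := Submodule.finiteDimensional_of_le hle
      have h3 := Submodule.finrank_lt_finrank_of_lt hlt
      obtain ⟨z, hz⟩ := ih K' hfin' (by omega)
      refine ⟨Fin.cons z0 z, ?_⟩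
      intro F hF hFz
      apply hz F
      · refine ⟨hF, ?_⟩
        have h4 := hFz 0
        rw [Fin.cons_zero, mem_pow_one] at h4
        exact h4
      · intro j
        have h4 := hFz j.succ
        rwa [Fin.cons_succ] at h4

/-- **The averaging lemma**, general form. -/
theorem avg_gen {d a X b σ : ℕ} (T : Fin a → ℕ) (ms : Multiset ℕ) (hb : b ≤ a)
    (hσ : b * X < (σ + 1) * a)
    (h0 : E d (Finset.univ.val.map (fun i => T i + 1) + ms))
    (h1 : E d (Finset.univ.val.map T + (ms + Multiset.replicate X 1))) :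
    ∃ S : Finset (Fin a), S.card = b ∧
      E d (Finset.univ.val.map (fun i => if i ∈ S then T i else T i + 1) +
        (ms + Multiset.replicate σ 1)) := by
  classical
  obtain ⟨s, μ, rfl⟩ := exists_fun ms
  rw [← map_append] at h0
  rw [← map_const' X 1, ← add_assoc, ← map_append, ← map_append] at h1
  obtain ⟨Q0, hQ00, hQ0⟩ := h0.generic
  obtain ⟨Q1, hQ10, hQ1⟩ := h1.generic
  obtain ⟨x, hx0, hx1, -⟩ := exists_pt3 (ι := Fin (a + s + X)) hQ00 hQ10 hQ10
    (fun i => Fin.castAdd X i) id id (Fin.castAdd_injective _ _) Function.injective_id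
    Function.injective_id
  set p : Fin (a + s) → Fin 2 → ℂ := fun i => x (Fin.castAdd X i) with hp
  have hE0 : Emp d (Fin.append (fun i => T i + 1) μ) p := hQ0 _ hx0
  have hE1 : Emp d (Fin.append (Fin.append T μ) fun _ : Fin X => 1) x := hQ1 _ hx1
  set K : Finset (Fin a) → Submodule ℂ R2 := fun S =>
    lsys d (Fin.append (fun i => if i ∈ S then T i else T i + 1) μ) p with hK
  have hKmem : ∀ S F, F ∈ K S ↔ wdeg 1 F ≤ d ∧
      (∀ i : Fin a, F ∈ ptIdeal (p (Fin.castAdd s i)) ^ (if i ∈ S then T i else T i + 1)) ∧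
      ∀ j : Fin s, F ∈ ptIdeal (p (Fin.natAdd a j)) ^ μ j := by
    intro S F
    rw [hK, mem_lsys]
    constructor
    · rintro ⟨h2, h3⟩
      refine ⟨h2, fun i => ?_, fun j => ?_⟩
      · have := h3 (Fin.castAdd s i)
        rwa [Fin.append_left] at this
      · have := h3 (Fin.natAdd a j)
        rwa [Fin.append_right] at this
    · rintro ⟨h2, h3, h4⟩
      refine ⟨h2, fun i => ?_⟩
      refine Fin.addCases (fun i => ?_) (fun j => ?_) i
      · rw [Fin.append_left]
        exact h3 i
      · rw [Fin.append_right]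
        exact h4 j
  -- all spaces are in the last one
  have hmono : ∀ S S' : Finset (Fin a), S ⊆ S' → K S ≤ K S' := by
    intro S S' hSS F hF
    rw [hKmem] at hF ⊢
    refine ⟨hF.1, fun i => ?_, hF.2.2⟩
    have h2 := hF.2.1 i
    by_cases hi : i ∈ S
    · rw [if_pos hi] at h2
      rw [if_pos (hSS hi)]
      exact h2
    · rw [if_neg hi] at h2
      split_ifs
      · exact Ideal.pow_le_pow_right (Nat.le_succ _) h2
      · exact h2
  have hun := finrank_le_of_pts (K Finset.univ) (fun j : Fin X => x (Fin.natAdd (a + s) j)) (by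
    intro F hF hF3
    rw [hKmem] at hF
    refine hE1 F hF.1 ?_
    intro i
    refine Fin.addCases (fun i => ?_) (fun j => ?_) i
    · rw [Fin.append_left]
      refine Fin.addCases (fun i => ?_) (fun j => ?_) i
      · rw [Fin.append_left]
        have := hF.2.1 i
        rwa [if_pos (Finset.mem_univ i)] at this
      · rw [Fin.append_right]
        exact hF.2.2 j
    · rw [Fin.append_right]
      exact hF3 j)
  obtain ⟨hfu, hru⟩ := hun
  have hfin : ∀ S, Module.Finite ℂ (K S) := fun S =>
    Submodule.finiteDimensional_of_le (hmono S Finset.univ (Finset.subset_univ S))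
  -- descent
  have key : ∀ k, k ≤ a → ∃ S : Finset (Fin a), S.card = a - k ∧
      a * Module.finrank ℂ (K S) ≤ (a - k) * X := by
    intro k
    induction k with
    | zero =>
      intro _
      refine ⟨Finset.univ, by simp, ?_⟩
      rw [Nat.sub_zero]
      exact Nat.mul_le_mul_left a hru
    | succ k ih =>
      intro hk
      obtain ⟨S, hS, hr⟩ := ih (by omega)
      have hSn : S.Nonempty := Finset.card_pos.mp (by omega)
      have hF := hfin S
      obtain ⟨i, hi, h2⟩ := exists_small S hSn (fun i => (K (S.erase i)).comap (K S).subtype) (by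
        intro F hF
        have h3 : (F : R2) = 0 := by
          apply hE0 F
          · exact ((hKmem _ _).mp F.2).1
          · intro i
            obtain ⟨i0, hi0⟩ := hSn
            refine Fin.addCases (fun i => ?_) (fun j => ?_) i
            · rw [Fin.append_left]
              by_cases hiS : i ∈ S
              · have h4 := ((hKmem _ _).mp (hF i hiS)).2.1 i
                rwa [if_neg (Finset.notMem_erase i S)] at h4
              · have h4 := ((hKmem _ _).mp F.2).2.1 i
                rwa [if_neg hiS] at h4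
            · rw [Fin.append_right]
              exact ((hKmem _ _).mp F.2).2.2 j
        exact Subtype.ext h3)
      refine ⟨S.erase i, by rw [Finset.card_erase_of_mem hi]; omega, ?_⟩
      have h3 : Module.finrank ℂ ((K (S.erase i)).comap (K S).subtype) =
          Module.finrank ℂ (K (S.erase i)) :=
        (Submodule.comapSubtypeEquivOfLe (hmono _ _ (Finset.erase_subset i S))).finrank_eq
      rw [h3, hS] at h2
      obtain ⟨c, hc⟩ : ∃ c, a - k = c + 1 := ⟨a - k - 1, by omega⟩
      have hc' : a - (k + 1) = c := by omega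
      rw [hc] at h2 hr
      rw [hc']
      have h4 : c + 1 - 1 = c := rfl
      rw [h4] at h2
      have h5 : (c + 1) * (a * Module.finrank ℂ (K (S.erase i))) ≤ (c + 1) * (c * X) := by
        calc (c + 1) * (a * Module.finrank ℂ (K (S.erase i))) =
            a * ((c + 1) * Module.finrank ℂ (K (S.erase i))) := by ring
          _ ≤ a * (c * Module.finrank ℂ (K S)) := Nat.mul_le_mul_left a h2
          _ = c * (a * Module.finrank ℂ (K S)) := by ring
          _ ≤ c * ((c + 1) * X) := Nat.mul_le_mul_left c hr
          _ = _ := by ring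
      exact Nat.le_of_mul_le_mul_left h5 (Nat.succ_pos c)
  obtain ⟨S, hS, hr⟩ := key (a - b) (by omega)
  have hab : a - (a - b) = b := by omega
  rw [hab] at hS hr
  refine ⟨S, hS, ?_⟩
  have hrS : Module.finrank ℂ (K S) ≤ σ := by
    have h2 : a * Module.finrank ℂ (K S) < a * (σ + 1) := by
      calc a * Module.finrank ℂ (K S) ≤ b * X := hr
        _ < (σ + 1) * a := hσ
        _ = _ := by ring
    have := Nat.lt_of_mul_lt_mul_left h2
    omega
  obtain ⟨z, hz⟩ := exists_pts σ (K S) (hfin S) hrS
  rw [← map_const' σ 1, ← add_assoc, ← map_append, ← map_append]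
  apply E_of_emp (p := Fin.append p z)
  intro F hF1 hF2
  apply hz F
  · rw [hKmem]
    refine ⟨hF1, fun i => ?_, fun j => ?_⟩
    · have h2 := hF2 (Fin.castAdd σ (Fin.castAdd s i))
      rwa [Fin.append_left, Fin.append_left, Fin.append_left] at h2
    · have h2 := hF2 (Fin.castAdd σ (Fin.natAdd a j))
      rwa [Fin.append_left, Fin.append_left, Fin.append_right] at h2
  · intro j
    have h2 := hF2 (Fin.natAdd (a + s) j)
    rwa [Fin.append_right, Fin.append_right] at h2

/-- values of a function which is `x` on `b` elements and `y` on the others -/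
lemma map_ite {a b x y : ℕ} (S : Finset (Fin a)) (hS : S.card = b) :
    (Finset.univ : Finset (Fin a)).val.map (fun i => if i ∈ S then x else y) =
      Multiset.replicate b x + Multiset.replicate (a - b) y := by
  have h1 : (Finset.univ : Finset (Fin a)).val = S.val + Sᶜ.val := by
    have h2 : (Finset.univ : Finset (Fin a)) = S.disjUnion Sᶜ disjoint_compl_right := by
      rw [Finset.disjUnion_eq_union, Finset.union_compl]
    rw [h2]
    rfl
  have h3 : S.val.map (fun i => if i ∈ S then x else y) = S.val.map (fun _ => x) :=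
    Multiset.map_congr rfl fun i hi => if_pos hi
  have h4 : Sᶜ.val.map (fun i => if i ∈ S then x else y) = Sᶜ.val.map (fun _ => y) :=
    Multiset.map_congr rfl fun i hi => if_neg (by
      have : i ∈ Sᶜ := hi
      exact Finset.mem_compl.mp this)
  have h5 : Multiset.card S.val = b := hS
  have h6 : Multiset.card Sᶜ.val = a - b := by
    show Sᶜ.card = _
    rw [Finset.card_compl, Fintype.card_fin, hS]
  rw [h1, Multiset.map_add, h3, h4, Multiset.map_const', Multiset.map_const', h5, h6]

/-- **The averaging lemma**, equal multiplicities. -/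
theorem avg {d a T X b σ : ℕ} (ms : Multiset ℕ) (hb : b ≤ a) (hσ : b * X < (σ + 1) * a)
    (h0 : E d (Multiset.replicate a (T + 1) + ms))
    (h1 : E d (Multiset.replicate a T + (ms + Multiset.replicate X 1))) :
    E d (Multiset.replicate b T + Multiset.replicate (a - b) (T + 1) +
        (ms + Multiset.replicate σ 1)) := by
  rw [← map_const' a (T + 1)] at h0
  rw [← map_const' a T] at h1
  obtain ⟨S, hS, h2⟩ := avg_gen (fun _ : Fin a => T) ms hb hσ h0 h1
  rwa [map_ite S hS] at h2

/-- the same in the form used by the assembly -/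
theorem avg' {d a T X b x : ℕ} {R : Multiset ℕ} (ha : 1 ≤ a) (hT : 1 ≤ T) (hb : b ≤ a)
    (hx : b * X ≤ a * x) (h0 : E d (Multiset.replicate a T + R))
    (h1 : E d (Multiset.replicate a (T - 1) + R + Multiset.replicate X 1)) :
    E d (Multiset.replicate (a - b) T + Multiset.replicate b (T - 1) + R +
      Multiset.replicate x 1) := by
  obtain ⟨t, rfl⟩ : ∃ t, T = t + 1 := ⟨T - 1, by omega⟩
  have h2 : t + 1 - 1 = t := rfl
  rw [h2, add_assoc] at h1
  rw [h2]
  have h3 := avg (σ := x) R hb (by
    calc b * X ≤ a * x := hx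
      _ < a * x + a := by omega
      _ = (x + 1) * a := by ring) h0 h1
  rw [add_comm (Multiset.replicate (a - b) (t + 1)), add_assoc (_ + _) R]
  exact h3

end Pool.Agent.helper38.EXH
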