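import Pool.Agent.helper38.EXH.Avg
import Pool.Agent.helper61.EX.Four

set_option autoImplicit false

/-!
# Exact non-speciality of homogeneous systems from two systems far from the critical dimension

`h = 4 a + r`. If `L_d((2m+1)^a, m^r)` is empty and `L_d((2m)^a, m^r)` has dimension at most `X`,
`X ≤ a m + v`, then `L_d(m^h)` with `v` simple points is empty.
-/

namespace Pool.Agent.helper38.EXH

open Pool.Agent.helper89.Segre Pool.Agent.SH9 Pool.Agent.helper61.EX

/-- all four-tuples collide -/
theorem collN {m d : ℕ} (hm : 1 ≤ m) : ∀ (a : ℕ) (R : Multiset ℕ),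
    (∀ b ≤ a, E d (Multiset.replicate (a - b) (2 * m + 1) + Multiset.replicate b (2 * m) + R +
      Multiset.replicate (b * m) 1)) → E d (Multiset.replicate (4 * a) m + R) := by
  intro a
  induction a with
  | zero =>
    intro R h
    have := h 0 le_rfl
    simpa using this
  | succ a ih =>
    intro R h
    have e1 : Multiset.replicate (4 * (a + 1)) m + R =
        Multiset.replicate 4 m + (Multiset.replicate (4 * a) m + R) := by
      rw [← add_assoc, ← Multiset.replicate_add, show 4 + 4 * a = 4 * (a + 1) by ring]
    rw [e1]
    apply coll4 hm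
    · rw [← Multiset.add_cons]
      apply ih
      intro b hb
      have h1 := h b (by omega)
      rw [show a + 1 - b = (a - b) + 1 by omega, Multiset.replicate_succ,
        ← Multiset.singleton_add] at h1
      rw [← Multiset.singleton_add]
      convert h1 using 1
      abel
    · have e2 : (2 * m) ::ₘ (Multiset.replicate (4 * a) m + R + Multiset.replicate m 1) =
          Multiset.replicate (4 * a) m + ((2 * m) ::ₘ (R + Multiset.replicate m 1)) := by
        rw [← Multiset.singleton_add, ← Multiset.singleton_add]
        abel
      rw [e2]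
      apply ih
      intro b hb
      have h1 := h (b + 1) (by omega)
      rw [show a + 1 - (b + 1) = a - b by omega, Multiset.replicate_succ,
        ← Multiset.singleton_add, show (b + 1) * m = b * m + m by ring,
        Multiset.replicate_add (b * m) m] at h1
      rw [← Multiset.singleton_add]
      convert h1 using 1
      abel

/-- **Exact emptiness.** -/
theorem hom_E {d m a X v : ℕ} {R : Multiset ℕ} (hm : 1 ≤ m) (ha : 1 ≤ a)
    (h0 : E d (Multiset.replicate a (2 * m + 1) + R))
    (h1 : E d (Multiset.replicate a (2 * m) + R + Multiset.replicate X 1))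
    (hX : X ≤ a * m + v) :
    E d (Multiset.replicate (4 * a) m + R + Multiset.replicate v 1) := by
  rw [add_assoc]
  apply collN hm
  intro b hb
  have h2 := avg' (b := b) (x := b * m + v) ha (by omega : 1 ≤ 2 * m + 1) hb (by
    calc b * X ≤ b * (a * m + v) := Nat.mul_le_mul_left b hX
      _ = a * (b * m) + b * v := by ring
      _ ≤ a * (b * m) + a * v := Nat.add_le_add_left (Nat.mul_le_mul_right v hb) _
      _ = a * (b * m + v) := by ring) h0 h1
  rw [show 2 * m + 1 - 1 = 2 * m from rfl] at h2
  have e1 : Multiset.replicate (b * m + v) 1 =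
      Multiset.replicate (b * m) 1 + Multiset.replicate v 1 := Multiset.replicate_add _ _ _
  rw [e1] at h2
  convert h2 using 1
  abel

/-- **Exact non-speciality**: `h = 4 a + r` points of multiplicity `m`. -/
theorem hom_exact {d m a r : ℕ} (hm : 1 ≤ m) (ha : 1 ≤ a)
    (h0 : E d (Multiset.replicate a (2 * m + 1) + Multiset.replicate r m))
    (h1 : Good ℂ (tri d) (Multiset.replicate a (2 * m) + Multiset.replicate r m)
      (a * kk (2 * m) + r * kk m))
    (h2 : a * kk (2 * m) + r * kk m ≤ (tri d).card) :
    Good ℂ (tri d) (Multiset.replicate (4 * a + r) m)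
      (min ((4 * a + r) * kk m) (tri d).card) := by
  have hk : 4 * kk m = kk (2 * m) + m := by
    have e1 := two_mul_kk m
    have e2 := two_mul_kk (2 * m)
    nlinarith
  have hak : (4 * a + r) * kk m = a * kk (2 * m) + r * kk m + a * m := by
    calc (4 * a + r) * kk m = a * (4 * kk m) + r * kk m := by ring
      _ = _ := by rw [hk]; ring
  obtain ⟨X, hX⟩ : ∃ X, (tri d).card = a * kk (2 * m) + r * kk m + X := ⟨_, (Nat.add_sub_cancel' h2).symm⟩
  have h3 : E d (Multiset.replicate a (2 * m) + Multiset.replicate r m +
      Multiset.replicate X 1) := E_ones_of_good h1 hX.le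
  obtain ⟨v, hv⟩ : ∃ v, v = (tri d).card - (4 * a + r) * kk m := ⟨_, rfl⟩
  have h4 := hom_E (v := v) hm ha h0 h3 (by omega)
  rw [← Multiset.replicate_add] at h4
  have h5 := good_of_E_ones h4
  have h6 : min ((4 * a + r) * kk m) (tri d).card = (tri d).card - v := by
    rw [hv]
    omega
  rw [h6]
  exact h5

end Pool.Agent.helper38.EXH
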