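import Pool.Agent.helper38.EXH.Hom
import Pool.Agent.SH9.HRE

set_option autoImplicit false

/-!
# Theorem H near the critical virtual dimension
-/

namespace Pool.Agent.helper38.EXH

open MvPolynomial Pool.Agent.helper89.Segre Pool.Agent.SH9 Pool.Agent.helper61.EX

/-- **Theorem H near virtual dimension zero.** -/
theorem mid_good {H a r m d : ℕ} (hH : 192 ≤ H) (hHa : 200 * H ≤ a) (hr : r ≤ 3) (hm : 1 ≤ m)
    (haH : a * H < 4 * (2 * m) ^ 2) (hexp : (a : ℝ) ≤ Real.exp (H / 2))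
    (hd : Real.exp (-(3 * H / 40)) * (d + 2) ≤ 1)
    (hE : 10 * (d + 2).choose 2 ≤ 10 * ((4 * a + r) * (m + 1).choose 2) + 7 * (a * m))
    (hR : 10 * ((4 * a + r) * (m + 1).choose 2) ≤ 10 * (d + 2).choose 2 + 4 * (a * m)) :
    Good ℂ (tri d) (Multiset.replicate (4 * a + r) m)
      (min ((4 * a + r) * kk m) (tri d).card) := by
  have h0 : E d (Multiset.replicate a (2 * m + 1) + Multiset.replicate r m) :=
    HE hH hHa hr (by nlinarith) hexp hd hE
  have h1 : Good ℂ (tri d) (Multiset.replicate a (2 * m) + Multiset.replicate r m)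
      (a * kk (2 * m) + r * kk m) := HR hH hHa hr haH hexp hd hR
  refine hom_exact hm (by omega) h0 h1 ?_
  have e1 := two_mul_kk m
  have e2 := two_mul_kk (2 * m)
  have hk : 4 * kk m = kk (2 * m) + m := by nlinarith
  have hak : (4 * a + r) * kk m = a * kk (2 * m) + r * kk m + a * m := by
    calc (4 * a + r) * kk m = a * (4 * kk m) + r * kk m := by ring
      _ = _ := by rw [hk]; ring
  have hR' : 10 * ((4 * a + r) * kk m) ≤ 10 * (d + 2).choose 2 + 4 * (a * m) := hR
  rw [card_tri]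
  omega

/-- the same for the space of forms -/
theorem mid_fin {H a r m d : ℕ} (hH : 192 ≤ H) (hHa : 200 * H ≤ a) (hr : r ≤ 3) (hm : 1 ≤ m)
    (haH : a * H < 4 * (2 * m) ^ 2) (hexp : (a : ℝ) ≤ Real.exp (H / 2))
    (hd : Real.exp (-(3 * H / 40)) * (d + 2) ≤ 1)
    (hE : 10 * (d + 2).choose 2 ≤ 10 * ((4 * a + r) * (m + 1).choose 2) + 7 * (a * m))
    (hR : 10 * ((4 * a + r) * (m + 1).choose 2) ≤ 10 * (d + 2).choose 2 + 4 * (a * m)) :
    ∃ Q : MvPolynomial (Fin (4 * a + r) × Fin 3) ℂ, Q ≠ 0 ∧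
      ∀ p : Fin (4 * a + r) → Fin 3 → ℂ,
      eval (fun ij : Fin (4 * a + r) × Fin 3 => p ij.1 ij.2) Q ≠ 0 →
      Module.finrank ℂ (sys d (4 * a + r) (fun _ => m) p) =
        (d + 2).choose 2 - (4 * a + r) * (m + 1).choose 2 := by
  have hsum : ∑ _k : Fin (4 * a + r), (m + 1).choose 2 = (4 * a + r) * (m + 1).choose 2 := by simp
  have hmap : (Finset.univ.val.map fun _ : Fin (4 * a + r) => m) =
      Multiset.replicate (4 * a + r) m := by
    rw [Multiset.map_const']
    simp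
  rw [← hsum]
  apply generic_of_good
  rw [hsum, hmap, ← card_tri]
  exact mid_good hH hHa hr hm haH hexp hd hE hR

end Pool.Agent.helper38.EXH
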